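import Pool.Agent.Helper43.FLU.Base
import Pool.Agent.Helper88.FL.Htpy

/-!
# Project FLQ: the two forms of mapping spaces, in any universe
-/

open CategoryTheory MonoidalCategory CartesianMonoidalCategory Opposite

set_option autoImplicit false

namespace Pool.Agent.Helper43.FLQB

open FL (HoEq)
open FLQ (SPU)
open Pool.Agent.Helper43.FLU (MpS)

noncomputable section

universe u

variable {A B : Type} [SmallCategory A] [SmallCategory B]

/-- From families of functions to maps `X × Δ[m] ⟶ Y`. -/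
def toMx {X Y : SPU.{u} A} {m : SimplexCategory} (φ : MpS X Y m) : FLQ.Mx X Y m where
  app a :=
    { app := fun k => ↾ fun (z : (X.obj a).obj k × (SSet.stdSimplex.obj m : SSet.{u}).obj k) =>
        φ.app a k (SSet.stdSimplex.objEquiv z.2) z.1
      naturality := fun k l α => by
        refine ConcreteCategory.hom_ext _ _ fun z => ?_
        exact φ.nat_right a α (SSet.stdSimplex.objEquiv z.2) z.1 }
  naturality a b f := by
    refine NatTrans.ext (funext fun k => ConcreteCategory.hom_ext _ _ fun z => ?_)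
    exact φ.nat_left f k (SSet.stdSimplex.objEquiv z.2) z.1

/-- From maps `X × Δ[m] ⟶ Y` to families of functions. -/
def ofMx {X Y : SPU.{u} A} {m : SimplexCategory} (φ : FLQ.Mx X Y m) : MpS X Y m where
  app a k s x := (φ.app a).app k (x, SSet.stdSimplex.objEquiv.symm s)
  nat_left {a b} f k s x := by
    exact FLU.hom_nat φ f (k := k) (x, SSet.stdSimplex.objEquiv.symm s)
  nat_right a k l g s x := by
    refine Eq.trans ?_ (FLU.hom_natk φ g (a := a) (x, SSet.stdSimplex.objEquiv.symm s))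
    rfl

lemma toMx_ofMx {X Y : SPU.{u} A} {m : SimplexCategory} (φ : FLQ.Mx X Y m) :
    toMx (ofMx φ) = φ := by
  refine NatTrans.ext (funext fun a => NatTrans.ext (funext fun k =>
    ConcreteCategory.hom_ext _ _ fun z => ?_))
  show (φ.app a).app k (z.1, SSet.stdSimplex.objEquiv.symm (SSet.stdSimplex.objEquiv z.2)) = _
  rw [Equiv.symm_apply_apply]
  rfl

lemma ofMx_toMx {X Y : SPU.{u} A} {m : SimplexCategory} (φ : MpS X Y m) :
    ofMx (toMx φ) = φ := by
  refine FLU.MpS.ext ?_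
  funext a k s x
  show φ.app a k (SSet.stdSimplex.objEquiv.{u} (SSet.stdSimplex.objEquiv.{u}.symm s)) x = _
  rw [Equiv.apply_symm_apply]

lemma toMx_injective {X Y : SPU.{u} A} {m : SimplexCategory} :
    Function.Injective (toMx : MpS X Y m → FLQ.Mx X Y m) := fun a b h => by
  rw [← ofMx_toMx a, h, ofMx_toMx]

lemma toMx_res {X Y : SPU.{u} A} {m l : SimplexCategory} (α : l ⟶ m) (φ : MpS X Y m) :
    toMx (φ.res α) = (toMx φ).res α := rfl

lemma toMx_comp {X Y Z : SPU.{u} A} {m : SimplexCategory} (φ : MpS X Y m) (ψ : MpS Y Z m) :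
    toMx (φ.comp ψ) = (toMx φ).comp (toMx ψ) := rfl

lemma toMx_of {X Y : SPU.{u} A} (f : X ⟶ Y) (m : SimplexCategory) :
    toMx (FLU.MpS.ofHom m f) = FLQ.Mx.of f m := rfl

lemma ofMx_res {X Y : SPU.{u} A} {m l : SimplexCategory} (α : l ⟶ m) (φ : FLQ.Mx X Y m) :
    ofMx (φ.res α) = (ofMx φ).res α := by
  apply toMx_injective
  rw [toMx_res, toMx_ofMx, toMx_ofMx]

lemma ofMx_comp {X Y Z : SPU.{u} A} {m : SimplexCategory} (φ : FLQ.Mx X Y m)
    (ψ : FLQ.Mx Y Z m) : ofMx (φ.comp ψ) = (ofMx φ).comp (ofMx ψ) := by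
  apply toMx_injective
  rw [toMx_comp, toMx_ofMx, toMx_ofMx, toMx_ofMx]

/-- The isomorphism between the two forms of mapping spaces. -/
def mpIso (X Y : SPU.{u} A) : FLU.Mp X Y ≅ FLQ.Mp X Y where
  hom := { app := fun m => ↾ fun (φ : MpS X Y m.unop) => toMx φ
           naturality := fun _ _ _ => rfl }
  inv := { app := fun m => ↾ fun (φ : FLQ.Mx X Y m.unop) => ofMx φ
           naturality := fun m l α => ConcreteCategory.hom_ext _ _ fun (φ : FLQ.Mx X Y m.unop) =>
             ofMx_res α.unop φ }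
  hom_inv_id := NatTrans.ext (funext fun m => ConcreteCategory.hom_ext _ _
    fun (φ : MpS X Y m.unop) => ofMx_toMx φ)
  inv_hom_id := NatTrans.ext (funext fun m => ConcreteCategory.hom_ext _ _
    fun (φ : FLQ.Mx X Y m.unop) => toMx_ofMx φ)

/-- Precomposition with an isomorphism. -/
def preIso {X X' : SPU.{u} A} (e : X ≅ X') (Y : SPU.{u} A) :
    FLQ.Mp X' Y ≅ FLQ.Mp X Y where
  hom := FLQ.Mp.pre e.hom Y
  inv := FLQ.Mp.pre e.inv Y
  hom_inv_id := NatTrans.ext (funext fun m => ConcreteCategory.hom_ext _ _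
    fun (φ : FLQ.Mx X' Y m.unop) => by
      show (FLQ.Mx.of e.inv m.unop).comp ((FLQ.Mx.of e.hom m.unop).comp φ) = φ
      rw [← FLQ.Mx.comp_assoc, ← FLQ.Mx.of_comp, e.inv_hom_id, FLQ.Mx.id_comp])
  inv_hom_id := NatTrans.ext (funext fun m => ConcreteCategory.hom_ext _ _
    fun (φ : FLQ.Mx X Y m.unop) => by
      show (FLQ.Mx.of e.hom m.unop).comp ((FLQ.Mx.of e.inv m.unop).comp φ) = φ
      rw [← FLQ.Mx.comp_assoc, ← FLQ.Mx.of_comp, e.hom_inv_id, FLQ.Mx.id_comp])

end

end Pool.Agent.Helper43.FLQB
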