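import Pool.Agent.Helper43.FLQ.Public
import Pool.Agent.Helper58.FLP.B8

/-!
# Project FLQ: the notions of `(∞,n)`-category and of flagged category
-/

open CategoryTheory MonoidalCategory CartesianMonoidalCategory Opposite

set_option autoImplicit false

namespace Pool.Agent.Helper43.FLQB

open FL (SP MpS HoEq InjFib Th Wr)

theorem segal_iff {C : Type} [SmallCategory C] (X : SP (Wr C)) : FLQ.Segal X ↔ FLP.Segal X :=
  Iff.rfl

theorem complete_iff {C : Type} [SmallCategory C] (X : SP (Wr C)) :
    FLQ.Complete X ↔ FLP.Complete X := Iff.rfl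

theorem isCat_mp {n : ℕ} {X : SP (Th n)} (h : FLQ.IsCat n X) : FLP.IsCat n X := by
  induction h with
  | zero X inj => exact FLP.IsCat.zero X inj
  | succ n X inj segal complete hom ih =>
    exact FLP.IsCat.succ n X inj segal complete ih

theorem isCat_mpr {n : ℕ} {X : SP (Th n)} (h : FLP.IsCat n X) : FLQ.IsCat n X := by
  induction h with
  | zero X inj => exact FLQ.IsCat.zero X inj
  | succ n X inj segal complete hom ih =>
    exact FLQ.IsCat.succ n X inj segal complete ih

theorem isCat_iff' {n : ℕ} {X : SP (Th n)} : FLQ.IsCat n X ↔ FLP.IsCat n X :=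
  ⟨isCat_mp, isCat_mpr⟩

/-- The two notions of `(∞,n)`-category agree. -/
theorem catIff (n : ℕ) (X : SP (Th n)) : FLQ.IsCat n X ↔ FL.IsCat n X :=
  isCat_iff'.trans (FLP.catIff n X)

theorem surj_mp {n k : ℕ} {X Y : SP (Th n)} {f : X ⟶ Y} (h : FLQ.Surj n k f) :
    FLP.Surj n k f := by
  induction h with
  | zero n f h => exact FLP.Surj.zero n f h
  | succ n k f h ih => exact FLP.Surj.succ n k f ih

theorem surj_mpr {n k : ℕ} {X Y : SP (Th n)} {f : X ⟶ Y} (h : FLP.Surj n k f) :
    FLQ.Surj n k f := by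
  induction h with
  | zero n f h => exact FLQ.Surj.zero n f h
  | succ n k f h ih => exact FLQ.Surj.succ n k f ih

variable {n : ℕ}

theorem flagged_iff' (D : SP (FLQ.Gn n)) : FLQ.Flagged D ↔ FLP.Flagged D := by
  constructor
  · intro h
    exact ⟨h.inj, fun i => isCat_mp (h.cat i), h.trunc, fun i j hij k hk =>
      surj_mp (h.surj i j hij k hk)⟩
  · intro h
    exact ⟨h.inj, fun i => isCat_mpr (h.cat i), h.trunc, fun i j hij k hk =>
      surj_mpr (h.surj i j hij k hk)⟩

theorem flagged_iff (D : SP (FLQ.Gn n)) : FLQ.Flagged D ↔ FL.Flagged D :=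
  (flagged_iff' D).trans (FLP.flagged_iff D)

end Pool.Agent.Helper43.FLQB
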