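import Pool.Agent.Helper43.FLQ.B1
import Pool.Agent.Helper43.FLQ.Cat
import Pool.Agent.Helper43.FLU.Main

/-!
# Project FLQ: presheaves on `Cat_n`
-/

open CategoryTheory MonoidalCategory CartesianMonoidalCategory Opposite

set_option autoImplicit false

namespace Pool.Agent.Helper43.FLQB

open FL (SP HoEq Th Wr)
open FLQ (SPU)

noncomputable section

variable {n : ℕ}

/-- From `FL.CatN` to `FLQ.CatN`. -/
def ofC (C : FL.CatN n) : FLQ.CatN n := ⟨C.1, (catIff n C.1).2 C.2⟩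

/-- From `FLQ.CatN` to `FL.CatN`. -/
def toC (C : FLQ.CatN n) : FL.CatN n := ⟨C.X, (catIff n C.X).1 C.cat⟩

/-- From `FLQ.PSh` to `FLU.PSh`. -/
def toPSh (F : FLQ.PSh n) : FLU.PSh n where
  obj C := F.obj (ofC C)
  act {C C' k} φ x := F.act (ofC C) (ofC C') (m := k.unop) (FLP.toMx φ) x
  act_nat {C C' k l} α φ x := F.act_res (ofC C) (ofC C') α.unop (FLP.toMx φ) x
  act_id {C k} x := F.act_id (ofC C) (m := k.unop) x
  act_comp {C C' C'' k} φ ψ x := F.act_comp (ofC C) (ofC C') (ofC C'') (m := k.unop)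
    (FLP.toMx φ) (FLP.toMx ψ) x

theorem kan_iff (F : FLQ.PSh n) : F.Kan ↔ (toPSh F).Kan :=
  ⟨fun h K => h (ofC K), fun h C => h (toC C)⟩

theorem essSmall_iff (F : FLQ.PSh n) : F.EssSmall ↔ (toPSh F).EssSmall :=
  ⟨fun h K => h (ofC K), fun h C => h (toC C)⟩

theorem act_eq (F : FLQ.PSh n) {C C' : FLQ.CatN n} {m : SimplexCategory} (ψ : C.Mx C' m)
    (x : FLQ.Sx (F.obj C') m) :
    F.act C C' ψ x = (toPSh F).act (C := toC C) (C' := toC C') (k := op m) (FLP.ofMx ψ) x :=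
  congrArg (fun t => F.act C C' t x) (FLP.toMx_ofMx ψ).symm

/-- From `FLQ.PSh.Hom` to `FLU.PSh.Hom`. -/
def toHomP {F G : FLQ.PSh n} (f : FLQ.PSh.Hom F G) : FLU.PSh.Hom (toPSh F) (toPSh G) where
  app K := f.app (ofC K)
  act {K K' k} φ x := f.act (ofC K) (ofC K') (m := k.unop) (FLP.toMx φ) x

/-- From morphisms `toPSh F ⟶ G'` to morphisms `F ⟶ G` for `G'` isomorphic to `toPSh G`. -/
theorem exists_hom {F G : FLQ.PSh n} {G' : FLU.PSh n}
    (e : ∀ K : FL.CatN n, (toPSh G).obj K ≅ G'.obj K)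
    (he : ∀ {K K' : FL.CatN n} {k : SimplexCategoryᵒᵖ} (φ : FL.MpS K.1 K'.1 k.unop)
      (x : ((toPSh G).obj K').obj k), (e K).hom.app k ((toPSh G).act φ x) =
        G'.act φ ((e K').hom.app k x)) (g : FLU.PSh.Hom (toPSh F) G') :
    ∃ h : FLQ.PSh.Hom F G, ∀ C, h.app C = g.app (toC C) ≫ (e (toC C)).inv := by
  refine ⟨{ app := fun C => g.app (toC C) ≫ (e (toC C)).inv, act := ?_ }, fun C => rfl⟩
  intro C C' m ψ x
  have h1 := g.act (C := toC C) (C' := toC C') (k := op m) (FLP.ofMx ψ) x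
  have h2 := he (K := toC C) (K' := toC C') (k := op m) (FLP.ofMx ψ)
    ((e (toC C')).inv.app (op m) ((g.app (toC C')).app (op m) x))
  have h3 : (e (toC C')).hom.app (op m)
      ((e (toC C')).inv.app (op m) ((g.app (toC C')).app (op m) x)) =
      (g.app (toC C')).app (op m) x :=
    ConcreteCategory.congr_hom (NatTrans.congr_app (e (toC C')).inv_hom_id (op m)) _
  rw [h3, ← h1] at h2
  have h4 := congrArg ((e (toC C)).inv.app (op m)) h2
  have h5 : ∀ y : ((toPSh G).obj (toC C)).obj (op m), (e (toC C)).inv.app (op m)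
      ((e (toC C)).hom.app (op m) y) = y := fun y =>
    ConcreteCategory.congr_hom (NatTrans.congr_app (e (toC C)).hom_inv_id (op m)) y
  refine Eq.trans ?_ (h4.symm.trans ((h5 _).trans ?_))
  · show (e (toC C)).inv.app (op m) ((g.app (toC C)).app (op m) (F.act C C' ψ x)) = _
    rw [act_eq F ψ x]
  · exact (act_eq G ψ _).symm

/-- Equivalences `F ⟶ G`: if `G'` is a presheaf on `FL.CatN n` with an isomorphism
`toPSh G ≅ G'` compatible with the actions. -/
theorem equiv_iff (F G : FLQ.PSh n) (G' : FLU.PSh n)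
    (e : ∀ K : FL.CatN n, (toPSh G).obj K ≅ G'.obj K)
    (he : ∀ {K K' : FL.CatN n} {k : SimplexCategoryᵒᵖ} (φ : FL.MpS K.1 K'.1 k.unop)
      (x : ((toPSh G).obj K').obj k), (e K).hom.app k ((toPSh G).act φ x) =
        G'.act φ ((e K').hom.app k x)) :
    FLQ.PSh.Equiv F G ↔ FLU.PSh.Equiv (toPSh F) G' := by
  constructor
  · rintro ⟨f, hf⟩
    refine ⟨⟨fun K => f.app (ofC K) ≫ (e K).hom, fun {K K' k} φ x => ?_⟩, fun K => ?_⟩
    · have h1 := f.act (ofC K) (ofC K') (m := k.unop) (FLP.toMx φ) x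
      refine Eq.trans (congrArg ((e K).hom.app k) h1) ?_
      exact he φ _
    · exact Pool.Agent.Helper88.FL.hoEq_of_arrow_iso (Iso.refl _) (e K)
        (Category.id_comp _).symm (hf (ofC K))
  · rintro ⟨φ, hφ⟩
    obtain ⟨h, hh⟩ := exists_hom e he φ
    refine ⟨h, fun C => ?_⟩
    rw [hh]
    exact Pool.Agent.Helper88.FL.hoEq_of_arrow_iso (Iso.refl _) (e (toC C)).symm
      (Category.id_comp _).symm (hφ (toC C))

theorem injFib_of {G : FLQ.PSh n} {G' : FLU.PSh n} (hG : G'.InjFib)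
    (e : ∀ K : FL.CatN n, (toPSh G).obj K ≅ G'.obj K)
    (he : ∀ {K K' : FL.CatN n} {k : SimplexCategoryᵒᵖ} (φ : FL.MpS K.1 K'.1 k.unop)
      (x : ((toPSh G).obj K').obj k), (e K).hom.app k ((toPSh G).act φ x) =
        G'.act φ ((e K').hom.app k x)) : G.InjFib := by
  intro F F' i hi hi' f
  obtain ⟨g, hg⟩ := hG _ _ (toHomP i) (fun C => hi _) (fun C => hi' _)
    { app := fun K => f.app (ofC K) ≫ (e K).hom
      act := fun {K K' k} φ x =>
        (congrArg ((e K).hom.app k) (f.act (ofC K) (ofC K') (m := k.unop)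
          (FLP.toMx φ) x)).trans (he φ _) }
  obtain ⟨h, hh⟩ := exists_hom e he g
  refine ⟨h, fun C => ?_⟩
  rw [hh]
  have h1 := hg (toC C)
  refine (Category.assoc _ _ _).symm.trans ?_
  exact (congrArg (· ≫ (e (toC C)).inv) h1).trans
    ((Category.assoc _ _ _).trans ((congrArg (f.app C ≫ ·) (e (toC C)).hom_inv_id).trans
      (Category.comp_id _)))

end

end Pool.Agent.Helper43.FLQB
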