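import Pool.Agent.Helper43.FLQ.B2

/-!
# Project FLQ: cocones and comparison maps
-/

open CategoryTheory MonoidalCategory CartesianMonoidalCategory Opposite

set_option autoImplicit false

namespace Pool.Agent.Helper43.FLQB

open FL (SP HoEq Th Wr)
open FLQ (SPU)

noncomputable section

variable {n : ℕ} {J : Type} [SmallCategory J]

/-- The diagram. -/
def toD (p : FLQ.PSh.Diag n J) : FLP.PSh.Diag n J := ⟨p.p, fun j => isCat_mp (p.cat j)⟩

/-- The category. -/
def toCP (C : FLQ.CatN n) : FLP.CatN n := ⟨C.X, isCat_mp C.cat⟩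

variable {p : FLQ.PSh.Diag n J} {C : FLQ.CatN n}

/-- From cocones in large to cocones in small simplicial sets. -/
def dnC (Λ : FLQ.PSh.Cocone p C) : FLP.PSh.Cocone (toD p) (toCP C) where
  app j :=
    { app := fun k => ↾ fun (w : ((FLP.PSh.Wt J).obj j).obj k) =>
        (((Λ.app j).app k (ULift.up w) : ULift.{1} _).down :
          (((FLP.PSh.rp (𝟭 (Th n)) (toCP C).X).along (toD p)).obj j).obj k)
      naturality := fun k l α => by
        refine ConcreteCategory.hom_ext _ _ fun w => ?_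
        exact congrArg ULift.down (FLU.hom_natk Λ α (a := j)
          (ULift.up w : ULift.{1} (((FLP.PSh.Wt J).obj j).obj k))) }
  naturality j j' f := by
    refine NatTrans.ext (funext fun k => ConcreteCategory.hom_ext _ _ fun w => ?_)
    exact congrArg ULift.down (FLU.hom_nat Λ f (k := k)
      (ULift.up w : ULift.{1} (((FLP.PSh.Wt J).obj j).obj k)))

/-- From cocones in small to cocones in large simplicial sets. -/
def upC (Λ : FLP.PSh.Cocone (toD p) (toCP C)) : FLQ.PSh.Cocone p C where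
  app j :=
    { app := fun k => ↾ fun (w : ULift.{1} (((FLP.PSh.Wt J).obj j).obj k)) =>
        (ULift.up ((Λ.app j).app k w.down) :
          ULift.{1} ((((FLP.PSh.rp (𝟭 (Th n)) (toCP C).X).along (toD p)).obj j).obj k))
      naturality := fun k l α => by
        refine ConcreteCategory.hom_ext _ _ fun (w : ULift.{1} (((FLP.PSh.Wt J).obj j).obj k)) => ?_
        exact congrArg ULift.up (FL.hom_natk Λ α (a := j) w.down) }
  naturality j j' f := by
    refine NatTrans.ext (funext fun k => ConcreteCategory.hom_ext _ _ fun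
      (w : ULift.{1} (((FLP.PSh.Wt J).obj j).obj k)) => ?_)
    exact congrArg ULift.up (FL.hom_nat Λ f (k := k) w.down)

theorem dnC_upC (Λ : FLP.PSh.Cocone (toD p) (toCP C)) : dnC (upC Λ) = Λ := rfl

/-- The weights. -/
def upW (e : FLP.PSh.Wt J ≅ FL.W J) : FLQ.PSh.Wt J ≅ (FLU.WU J : SPU.{1} J) :=
  Functor.isoWhiskerRight e SSet.uliftFunctor.{1, 0}

theorem along_eq (F : FLQ.PSh n) (p : FLQ.PSh.Diag n J) :
    (toPSh F).along p.p (fun j => (catIff n _).1 (p.cat j)) = F.along p := rfl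

theorem compare_eq (e : FLP.PSh.Wt J ≅ FL.W J) (F : FLQ.PSh n)
    {Λ : FLQ.PSh.Cocone p C} {Λ' : FL.Hoco p.p ⟶ C.X} (h : FLP.Corr e (dnC Λ) Λ') :
    (toPSh F).compare p.p (fun j => (catIff n _).1 (p.cat j)) ((catIff n _).1 C.cat) Λ' ≫
      (mpIso (FLU.WU J) (F.along p)).hom ≫ (preIso (upW e) (F.along p)).hom = F.compare Λ := by
  refine NatTrans.ext (funext fun m => ConcreteCategory.hom_ext _ _ fun x => ?_)
  refine NatTrans.ext (funext fun j => NatTrans.ext (funext fun k =>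
    ConcreteCategory.hom_ext _ _ fun z => ?_))
  show F.act (p.at j.unop) C (FLP.toMx (FL.coneS Λ' ((e.hom.app j).app k (z.1 : ULift.{1} _).down)))
      ((F.obj C).map (SSet.stdSimplex.objEquiv z.2).op x) =
    F.act (p.at j.unop) C ((Λ.app j).app k z.1 : ULift.{1} _).down
      ((SSet.yonedaEquiv.symm x : _ ⟶ F.obj C).app k z.2)
  have h1 := h j.unop k.unop ((e.hom.app j).app k (z.1 : ULift.{1} _).down)
  have h2 : (e.inv.app j).app k ((e.hom.app j).app k (z.1 : ULift.{1} _).down) =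
      (z.1 : ULift.{1} _).down :=
    ConcreteCategory.congr_hom (NatTrans.congr_app (NatTrans.congr_app e.hom_inv_id j) k) _
  exact congrArg (fun t => F.act (p.at j.unop) C (m := k.unop) t
    ((F.obj C).map (SSet.stdSimplex.objEquiv z.2).op x))
    ((congrArg FLP.toMx h1).trans ((FLP.toMx_ofMx _).trans (congrArg ((dnC Λ).app j |>.app k) h2)))

theorem compare_iff (e : FLP.PSh.Wt J ≅ FL.W J) (F : FLQ.PSh n)
    {Λ : FLQ.PSh.Cocone p C} {Λ' : FL.Hoco p.p ⟶ C.X} (h : FLP.Corr e (dnC Λ) Λ') :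
    HoEq (F.compare Λ) ↔ HoEq ((toPSh F).compare p.p (fun j => (catIff n _).1 (p.cat j))
      ((catIff n _).1 C.cat) Λ') := by
  constructor
  · intro h1
    refine Pool.Agent.Helper88.FL.hoEq_of_arrow_iso (Iso.refl _)
      ((mpIso (FLU.WU J) (F.along p)).trans (preIso (upW e) (F.along p))).symm ?_ h1
    refine (Iso.comp_inv_eq _).2 ?_
    exact (compare_eq e F h).symm
  · intro h1
    refine Pool.Agent.Helper88.FL.hoEq_of_arrow_iso (Iso.refl _)
      ((mpIso (FLU.WU J) (F.along p)).trans (preIso (upW e) (F.along p))) ?_ h1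
    exact (compare_eq e F h).trans (Category.id_comp _).symm

theorem rp_eq {B : Type} [SmallCategory B] (t : B ⥤ Th n) (Z : SP B) :
    toPSh (FLQ.PSh.rp t Z) =
      FLU.upPSh (FLP.toPSh (FLP.catIff n) (FLP.PSh.rp t Z)) := rfl

theorem rp_compare_iff (e : FLP.PSh.Wt J ≅ FL.W J)
    {Λ : FLQ.PSh.Cocone p C} {Λ' : FL.Hoco p.p ⟶ C.X} (h : FLP.Corr e (dnC Λ) Λ') (i : ℕ)
    (Z : FLQ.CatN n) :
    HoEq ((FLQ.PSh.rp (FL.tr n i) Z.X).compare Λ) ↔
      HoEq (FL.Mp.pre (Functor.whiskerLeft (FL.tr n i).op Λ') Z.X) := by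
  rw [compare_iff e _ h, rp_eq]
  refine (FLU.compare_up_iff _ _ _ _ _).trans ?_
  refine ((FLP.hyp (FLP.catIff n)).compare_iff e _ h).symm.trans ?_
  exact (FLP.hyp (FLP.catIff n)).rp_compare_iff e h i (toCP Z)

theorem gauntDescent_iff (F : FLQ.PSh n) : F.GauntDescent ↔ (toPSh F).GauntDescent := by
  constructor
  · intro h J _ p C Λ' hΛ
    obtain ⟨e⟩ := (FLP.hyp (FLP.catIff n)).exists_wtIso J
    let P : FLQ.PSh.Diag n J := ⟨p, fun j => (catIff n _).2 (hΛ.cat_obj j)⟩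
    let K : FLQ.CatN n := ⟨C, (catIff n _).2 hΛ.cat_pt⟩
    obtain ⟨Λ, hc⟩ := ((FLP.hyp (FLP.catIff n)).exists_corr e (toD P) (toCP K)).2 Λ'
    have hc' : FLP.Corr e (dnC (upC (p := P) (C := K) Λ)) Λ' := hc
    have hg : FLQ.PSh.IsGaunt (upC (p := P) (C := K) Λ) := fun i hi Z =>
      (rp_compare_iff e hc' i Z).2 (hΛ.colim i hi Z.X ((catIff n _).1 Z.cat))
    exact (compare_iff e F hc').1 (h J P K _ hg)
  · intro h J _ P K Λ hΛ
    obtain ⟨e⟩ := (FLP.hyp (FLP.catIff n)).exists_wtIso J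
    obtain ⟨Λ', hc⟩ := ((FLP.hyp (FLP.catIff n)).exists_corr e (toD P) (toCP K)).1 (dnC Λ)
    have hg : FL.IsGaunt P.p Λ' := ⟨fun j => (catIff n _).1 (P.cat j), (catIff n _).1 K.cat,
      fun i hi Z hZ => (rp_compare_iff e hc i ⟨Z, (catIff n _).2 hZ⟩).1
        (hΛ i hi ⟨Z, (catIff n _).2 hZ⟩)⟩
    exact (compare_iff e F hc).2 (h J P.p K.X Λ' hg)

end

end Pool.Agent.Helper43.FLQB
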