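import Pool.Agent.Helper43.FLQ.B3

/-!
# Project FLQ: the restricted Yoneda functor and the conjecture
-/

open CategoryTheory MonoidalCategory CartesianMonoidalCategory Opposite

set_option autoImplicit false

namespace Pool.Agent.Helper43.FLQB

open FL (SP HoEq Th Wr)
open FLQ (SPU)

noncomputable section

variable {n : ℕ}

theorem yd_eq (D : SP (FLQ.Gn n)) :
    toPSh (FLQ.YD D) = FLU.upPSh (FLP.toPSh (FLP.catIff n) (FLP.YD D)) := rfl

theorem exists_ydIso (D : SP (FLQ.Gn n)) :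
    ∃ e : ∀ K : FL.CatN n, (toPSh (FLQ.YD D)).obj K ≅ (FLU.upPSh (FL.YD D)).obj K,
      ∀ {K K' : FL.CatN n} {k : SimplexCategoryᵒᵖ} (φ : FL.MpS K.1 K'.1 k.unop)
        (x : ((toPSh (FLQ.YD D)).obj K').obj k),
        (e K).hom.app k ((toPSh (FLQ.YD D)).act φ x) =
          (FLU.upPSh (FL.YD D)).act φ ((e K').hom.app k x) := by
  obtain ⟨e, he⟩ := Pool.Agent.Helper45.FLPYD.exists_ydIso (FLP.catIff n) D
  refine ⟨fun K => SSet.uliftFunctor.{1, 0}.mapIso (e K), ?_⟩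
  intro K K' k φ x
  exact congrArg ULift.up (he φ (ULift.down x))

section Map

variable (D D' : SP (FLQ.Gn n))

/-- From `FLQ` to `FLP`. -/
def dnM {m : SimplexCategory} (ψ : FLQ.PSh.MapS (FLQ.YD D) (FLQ.YD D') m) :
    FLP.PSh.MapS (FLP.YD D) (FLP.YD D') m where
  app C {l} s x := (ψ.app ⟨C.X, isCat_mpr C.cat⟩ s (ULift.up x) : ULift.{1} _).down
  nat C {l k} α s x := congrArg ULift.down (ψ.nat ⟨C.X, isCat_mpr C.cat⟩ α s (ULift.up x))
  act C C' {l} s φ x := congrArg ULift.down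
    (ψ.act ⟨C.X, isCat_mpr C.cat⟩ ⟨C'.X, isCat_mpr C'.cat⟩ s φ (ULift.up x))

/-- From `FLP` to `FLQ`. -/
def upM {m : SimplexCategory} (ψ : FLP.PSh.MapS (FLP.YD D) (FLP.YD D') m) :
    FLQ.PSh.MapS (FLQ.YD D) (FLQ.YD D') m where
  app C {l} s x := ULift.up (ψ.app ⟨C.X, isCat_mp C.cat⟩ s (x : ULift.{1} _).down)
  nat C {l k} α s x := congrArg ULift.up
    (ψ.nat ⟨C.X, isCat_mp C.cat⟩ α s (x : ULift.{1} _).down)
  act C C' {l} s φ x := congrArg ULift.up
    (ψ.act ⟨C.X, isCat_mp C.cat⟩ ⟨C'.X, isCat_mp C'.cat⟩ s φ (x : ULift.{1} _).down)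

/-- The isomorphism of mapping spaces. -/
def mapIso : FLQ.PSh.Map (FLQ.YD D) (FLQ.YD D') ≅ FLP.PSh.Map (FLP.YD D) (FLP.YD D') where
  hom := { app := fun m => ↾ fun (ψ : FLQ.PSh.MapS (FLQ.YD D) (FLQ.YD D') m.unop) =>
             dnM D D' ψ
           naturality := fun _ _ _ => rfl }
  inv := { app := fun m => ↾ fun (ψ : FLP.PSh.MapS (FLP.YD D) (FLP.YD D') m.unop) =>
             upM D D' ψ
           naturality := fun _ _ _ => rfl }
  hom_inv_id := rfl
  inv_hom_id := rfl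

lemma square : FLQ.YDmap D D' ≫ (mapIso D D').hom = FLP.YDmap D D' := rfl

theorem yDmap_iff : HoEq (FLQ.YDmap D D') ↔ HoEq (FL.YDmap D D') := by
  refine Iff.trans ?_ (Pool.Agent.Helper45.FLPYD.yDmap_iff (FLP.catIff n) D D')
  constructor
  · exact Pool.Agent.Helper88.FL.hoEq_of_arrow_iso (Iso.refl _) (mapIso D D') (square D D')
  · exact Pool.Agent.Helper88.FL.hoEq_of_arrow_iso (Iso.refl _) (mapIso D D').symm rfl

end Map

theorem conjecture_of (hT : FL.KnownTheorem n) (hG : FL.KnownGaunt n) : FLQ.Conjecture n := by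
  refine ⟨fun D hD => ?_, fun D D' hD hD' => ?_, fun F hF => ?_⟩
  · obtain ⟨e, he⟩ := exists_ydIso D
    exact injFib_of (FLU.YD_injFib Pool.Agent.Helper58.FLS.hrep D hD.inj) e he
  · exact (yDmap_iff D D').2 ((Pool.Agent.Helper58.FLS.YDmap_iff D D').2
      (hT.1 D D' ((flagged_iff D).1 hD) ((flagged_iff D').1 hD')))
  · rw [gauntDescent_iff, essSmall_iff,
      FLU.main Pool.Agent.Helper58.FLS.hrep hT hG ((kan_iff F).1 hF)]
    refine exists_congr fun D => and_congr (flagged_iff D).symm ?_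
    obtain ⟨e, he⟩ := exists_ydIso D
    exact (equiv_iff F (FLQ.YD D) _ e he).symm

end

end Pool.Agent.Helper43.FLQB
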