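import Pool.Agent.Helper43.FLQ.B4
import Pool.Agent.Helper58.FL2.Final

/-!
# Project FLQ: the conjecture of Ayala and Francis on flagged `(∞,n)`-categories
-/

set_option autoImplicit false

namespace Pool.Agent.Helper43.FLQB

theorem conjecture (n : ℕ) : FLQ.Conjecture n :=
  conjecture_of (Pool.Agent.Helper58.FL2F.knownTheorem' n)
    (Pool.Agent.Helper64.FL2.knownGaunt n)

end Pool.Agent.Helper43.FLQB
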